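import Pool.Agent.Helper28.ND.Spec

set_option autoImplicit false

open MeasureTheory Set Filter Topology
open scoped ENNReal NNReal

namespace Pool.Agent.Helper98.ND.IBP

open Pool.Agent.Helper28.ND

theorem ins_eq {n : ℕ} (i : Fin (n + 1)) (t : ℝ) (y : Fin n → ℝ) :
    (Fin.insertNth i t y : Fin (n + 1) → ℝ) =
      Fin.insertNth (α := fun _ => ℝ) i 0 y + t • Pi.single i (1 : ℝ) := by
  ext j
  rcases Fin.eq_self_or_eq_succAbove i j with rfl | ⟨k, rfl⟩
  · simp
  · simp [Fin.succAbove_ne]

theorem cont_pd {d : ℕ} (G : (Fin d → ℝ) → ℝ) (hG : ContDiff ℝ 1 G) (i : Fin d) :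
    Continuous (pd i G) := by
  unfold pd
  exact (hG.continuous_fderiv one_ne_zero).clm_apply continuous_const

theorem hasDeriv {n : ℕ} (G : (Fin (n + 1) → ℝ) → ℝ) (hG : ContDiff ℝ 1 G) (i : Fin (n + 1))
    (y : Fin n → ℝ) (t : ℝ) :
    HasDerivAt (fun t : ℝ => G (Fin.insertNth i t y)) (pd i G (Fin.insertNth i t y)) t := by
  have h1 : HasFDerivAt G (fderiv ℝ G (Fin.insertNth (α := fun _ => ℝ) i t y))
      (Fin.insertNth (α := fun _ => ℝ) i t y) :=
    (hG.differentiable (by norm_num) _).hasFDerivAt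
  have h2 : HasDerivAt (fun t : ℝ => (Fin.insertNth i t y : Fin (n + 1) → ℝ))
      (Pi.single i (1 : ℝ)) t := by
    have h3 : (fun t : ℝ => (Fin.insertNth i t y : Fin (n + 1) → ℝ)) =
        fun t : ℝ => Fin.insertNth (α := fun _ => ℝ) i 0 y + t • Pi.single i (1 : ℝ) := by
      funext t
      exact ins_eq i t y
    rw [h3]
    have h4 := ((hasDerivAt_id t).smul_const (Pi.single i (1 : ℝ) : Fin (n + 1) → ℝ)).const_add
      (Fin.insertNth (α := fun _ => ℝ) i 0 y)
    rw [one_smul] at h4
    exact h4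
  exact h1.comp_hasDerivAt t h2

theorem main : S_IBP := by
  intro d G hG hper i
  cases d with
  | zero => exact i.elim0
  | succ n =>
    have hc := cont_pd G hG i
    have hmp := (volume_preserving_piFinSuccAbove (fun _ : Fin (n + 1) => ℝ) i).symm
    set e := (MeasurableEquiv.piFinSuccAbove (fun _ : Fin (n + 1) => ℝ) i).symm with he
    have hee : ∀ z : ℝ × (Fin n → ℝ), e z = Fin.insertNth (α := fun _ => ℝ) i z.1 z.2 :=
      fun z => rfl
    have hpre : e ⁻¹' (Q (n + 1)) = Ioc (0 : ℝ) 1 ×ˢ Q n := by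
      ext z
      rw [mem_preimage, hee]
      unfold Q
      rw [mem_prod, mem_univ_pi, mem_univ_pi, Fin.forall_iff_succAbove i]
      simp
    rw [← hmp.setIntegral_preimage_emb e.measurableEmbedding, hpre, Measure.volume_eq_prod,
      ← Measure.prod_restrict]
    have hint : Integrable (fun z : ℝ × (Fin n → ℝ) => pd i G (e z))
        ((volume.restrict (Ioc (0 : ℝ) 1)).prod (volume.restrict (Q n))) := by
      rw [Measure.prod_restrict, ← Measure.volume_eq_prod]
      have hce : Continuous (fun z : ℝ × (Fin n → ℝ) => pd i G (e z)) := by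
        refine hc.comp ?_
        have h5 : Continuous (fun z : ℝ × (Fin n → ℝ) =>
            (Fin.insertNth (α := fun _ => ℝ) i z.1 z.2 : Fin (n + 1) → ℝ)) :=
          Continuous.finInsertNth i continuous_fst continuous_snd
        exact h5
      have hK : IsCompact (Icc (0 : ℝ) 1 ×ˢ Set.pi Set.univ (fun _ : Fin n => Icc (0 : ℝ) 1)) :=
        isCompact_Icc.prod (isCompact_univ_pi fun _ => isCompact_Icc)
      refine (hce.continuousOn.integrableOn_compact hK).mono_set ?_
      refine prod_mono Ioc_subset_Icc_self ?_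
      exact pi_mono fun _ _ => Ioc_subset_Icc_self
    rw [integral_prod_symm _ hint]
    refine integral_eq_zero_of_ae (Eventually.of_forall fun y => ?_)
    simp only [Pi.zero_apply, hee]
    have h1 : ∫ t in Ioc (0 : ℝ) 1, pd i G (Fin.insertNth (α := fun _ => ℝ) i t y) =
        ∫ t in (0 : ℝ)..1, pd i G (Fin.insertNth (α := fun _ => ℝ) i t y) := by
      rw [intervalIntegral.integral_of_le zero_le_one]
    rw [h1, intervalIntegral.integral_eq_sub_of_hasDerivAt
      (f := fun t : ℝ => G (Fin.insertNth (α := fun _ => ℝ) i t y))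
      (fun t _ => hasDeriv G hG i y t)]
    · have h2 : (Fin.insertNth (α := fun _ => ℝ) i 1 y : Fin (n + 1) → ℝ) =
          fun j => (Fin.insertNth (α := fun _ => ℝ) i 0 y : Fin (n + 1) → ℝ) j +
            (((Pi.single i (1 : ℤ) : Fin (n + 1) → ℤ) j : ℤ) : ℝ) := by
        funext j
        rcases Fin.eq_self_or_eq_succAbove i j with rfl | ⟨k, rfl⟩
        · simp
        · simp [Fin.succAbove_ne]
      rw [h2, hper, sub_self]
    · refine Continuous.intervalIntegrable ?_ _ _
      have h5 : Continuous (fun t : ℝ =>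
          (Fin.insertNth (α := fun _ => ℝ) i t y : Fin (n + 1) → ℝ)) :=
        Continuous.finInsertNth i continuous_id continuous_const
      exact hc.comp h5

end Pool.Agent.Helper98.ND.IBP
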