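import Pool.Agent.Helper28.ND.Spec

set_option autoImplicit false

open MeasureTheory Set Filter Topology
open scoped ENNReal NNReal

namespace Pool.Agent.Helper98.ND.INTG

open Pool.Agent.Helper28.ND

theorem vol_Q (d : ℕ) : volume (Q d) = 1 := by
  unfold Q
  rw [volume_pi_pi]
  simp

instance prob_Q (d : ℕ) : IsProbabilityMeasure (volume.restrict (Q d)) := by
  constructor
  rw [Measure.restrict_apply_univ, vol_Q]

theorem lint_sq {d : ℕ} {E : Type*} [NormedAddCommGroup E] (f : (Fin d → ℝ) → E) :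
    ∫⁻ x in Q d, ‖f x‖ₑ ^ 2 = (eLpNorm f 2 (volume.restrict (Q d))) ^ 2 := by
  rw [eLpNorm_eq_lintegral_rpow_enorm_toReal (by norm_num) (by norm_num)]
  rw [← ENNReal.rpow_natCast, ← ENNReal.rpow_mul]
  norm_num

theorem two_le {p q : ℝ≥0∞} (h : 2 * p⁻¹ + q⁻¹ ≤ 1) : 2 ≤ p := by
  have h1 : 2 * p⁻¹ ≤ 1 := le_trans le_self_add h
  have h2 : p⁻¹ ≤ 2⁻¹ := by
    rw [← ENNReal.mul_le_mul_iff_right (a := 2) (by norm_num) (by norm_num)]
    rw [ENNReal.mul_inv_cancel (by norm_num) (by norm_num)]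
    exact h1
  exact ENNReal.inv_le_inv.1 h2

/-- the main estimate on a slice -/
theorem slice {d : ℕ} {p q : ℝ≥0∞} (hq : 2 ≤ q) (h : 2 * p⁻¹ + q⁻¹ ≤ 1)
    (u : (Fin d → ℝ) → ℝ) (b : (Fin d → ℝ) → (Fin d → ℝ)) (hu : Measurable u)
    (hb : Measurable b) :
    ∫⁻ x in Q d, ‖u x‖ₑ * ‖b x‖ₑ ^ 2 ≤ eLpNorm u q (volume.restrict (Q d)) *
      (eLpNorm b p (volume.restrict (Q d))) ^ 2 := by
  set r : ℝ≥0∞ := (1 - q⁻¹)⁻¹ with hr
  have hq1 : q⁻¹ ≤ 1 := by
    rw [ENNReal.inv_le_one]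
    exact le_trans (by norm_num) hq
  have hconj : ENNReal.HolderTriple q r 1 := by
    constructor
    rw [hr, inv_inv, inv_one]
    exact add_tsub_cancel_of_le hq1
  have h1 : eLpNorm (u • fun x => ‖b x‖ ^ (2 : ℝ)) 1 (volume.restrict (Q d)) ≤
      eLpNorm u q (volume.restrict (Q d)) *
        eLpNorm (fun x => ‖b x‖ ^ (2 : ℝ)) r (volume.restrict (Q d)) :=
    eLpNorm_smul_le_mul_eLpNorm (hb.norm.pow_const (2 : ℝ)).aestronglyMeasurable
      hu.aestronglyMeasurable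
  have h2 : eLpNorm (fun x => ‖b x‖ ^ (2 : ℝ)) r (volume.restrict (Q d)) =
      eLpNorm b (r * ENNReal.ofReal 2) (volume.restrict (Q d)) ^ (2 : ℝ) :=
    eLpNorm_norm_rpow b (by norm_num)
  have hrp : r * ENNReal.ofReal 2 ≤ p := by
    rw [← ENNReal.inv_le_inv]
    have h3 : 2 * p⁻¹ ≤ 1 - q⁻¹ := by
      refine ENNReal.le_sub_of_add_le_right ?_ h
      intro h4
      rw [h4] at hq1
      exact absurd hq1 (by norm_num)
    have h5 : (r * ENNReal.ofReal 2)⁻¹ = (1 - q⁻¹) * 2⁻¹ := by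
      rw [ENNReal.mul_inv (Or.inr (by norm_num)) (Or.inr (by norm_num)), hr, inv_inv]
      norm_num
    rw [h5]
    have h6 : p⁻¹ = (2 * p⁻¹) * 2⁻¹ := by
      rw [mul_comm 2 p⁻¹, mul_assoc, ENNReal.mul_inv_cancel (by norm_num) (by norm_num), mul_one]
    rw [h6]
    gcongr
  have h7 : eLpNorm b (r * ENNReal.ofReal 2) (volume.restrict (Q d)) ≤
      eLpNorm b p (volume.restrict (Q d)) :=
    eLpNorm_le_eLpNorm_of_exponent_le hrp hb.aestronglyMeasurable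
  have h8 : ∫⁻ x in Q d, ‖u x‖ₑ * ‖b x‖ₑ ^ 2 =
      eLpNorm (u • fun x => ‖b x‖ ^ (2 : ℝ)) 1 (volume.restrict (Q d)) := by
    rw [eLpNorm_one_eq_lintegral_enorm]
    refine lintegral_congr fun x => ?_
    rw [Pi.smul_apply', enorm_smul]
    congr 1
    rw [Real.rpow_two, enorm_pow, enorm_norm]
  rw [h8]
  refine h1.trans ?_
  rw [h2]
  gcongr
  rw [ENNReal.rpow_two]
  gcongr

theorem main : S_INTG := by
  intro d T p q b u0 u hT hq hpq hb hu
  have hp2 := two_le hpq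
  have hmb : ∀ t, Measurable (b t) := fun t => hb.meas.comp measurable_prodMk_left
  have hmu : ∀ t, Measurable (u t) := fun t => hu.meas.comp measurable_prodMk_left
  obtain ⟨C, hC⟩ := hu.bound
  have hN := hb.norm
  set N : ℝ → ℝ≥0∞ := fun t => (eLpNorm (b t) p (volume.restrict (Q d))) ^ 2 with hNdef
  -- u in L1
  have hu1 : ∀ᵐ t ∂(volume.restrict (Ioo 0 T)), ∫⁻ x in Q d, ‖u t x‖ₑ ≤ C := by
    filter_upwards [hC] with t ht
    refine le_trans ?_ ht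
    rw [← eLpNorm_one_eq_lintegral_enorm]
    exact eLpNorm_le_eLpNorm_of_exponent_le (le_trans (by norm_num) hq)
      (hmu t).aestronglyMeasurable
  have hub : ∀ᵐ t ∂(volume.restrict (Ioo 0 T)), ∫⁻ x in Q d, ‖u t x‖ₑ * ‖b t x‖ₑ ^ 2 ≤
      C * N t := by
    filter_upwards [hC] with t ht
    refine (slice hq hpq (u t) (b t) (hmu t) (hmb t)).trans ?_
    gcongr
  have hTfin : volume.restrict (Ioo 0 T) Set.univ < ⊤ := by
    rw [Measure.restrict_apply_univ, Real.volume_Ioo]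
    exact ENNReal.ofReal_lt_top
  have hCN : ∫⁻ t in Ioo 0 T, (C : ℝ≥0∞) * N t < ⊤ := by
    rw [lintegral_const_mul' _ _ ENNReal.coe_ne_top]
    exact ENNReal.mul_lt_top ENNReal.coe_lt_top hN
  refine ⟨?_, ?_, ?_, ?_, ?_⟩
  · have h1 : ∫⁻ t in Ioo 0 T, ∫⁻ x in Q d, ‖u t x‖ₑ * ‖b t x‖ₑ ≤
        ∫⁻ t in Ioo 0 T, ((C : ℝ≥0∞) + C * N t) := by
      refine lintegral_mono_ae ?_
      filter_upwards [hu1, hub] with t h1 h2
      have h3 : ∫⁻ x in Q d, ‖u t x‖ₑ * ‖b t x‖ₑ ≤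
          ∫⁻ x in Q d, (‖u t x‖ₑ + ‖u t x‖ₑ * ‖b t x‖ₑ ^ 2) := by
        refine lintegral_mono fun x => ?_
        have h4 : ‖b t x‖ₑ ≤ 1 + ‖b t x‖ₑ ^ 2 := by
          rcases le_total ‖b t x‖ₑ 1 with h5 | h5
          · exact h5.trans le_self_add
          · refine le_trans ?_ le_add_self
            rw [sq]
            exact le_mul_of_one_le_left' h5
        calc ‖u t x‖ₑ * ‖b t x‖ₑ ≤ ‖u t x‖ₑ * (1 + ‖b t x‖ₑ ^ 2) := by gcongr
          _ = _ := by rw [mul_add, mul_one]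
      refine h3.trans ?_
      rw [lintegral_add_left ((hmu t).enorm)]
      exact add_le_add h1 h2
    refine lt_of_le_of_lt h1 ?_
    rw [lintegral_add_left measurable_const, lintegral_const]
    exact ENNReal.add_lt_top.2 ⟨ENNReal.mul_lt_top ENNReal.coe_lt_top hTfin, hCN⟩
  · exact lt_of_le_of_lt (lintegral_mono_ae hub) hCN
  · refine lt_of_le_of_lt (lintegral_mono fun t => ?_) hN
    rw [lint_sq]
    exact pow_le_pow_left' (eLpNorm_le_eLpNorm_of_exponent_le hp2 (hmb t).aestronglyMeasurable) 2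
  · have h1 : ∫⁻ t in Ioo 0 T, ∫⁻ x in Q d, ENNReal.ofReal ((u t x) ^ 2) ≤
        ∫⁻ _t in Ioo 0 T, (C : ℝ≥0∞) ^ 2 := by
      refine lintegral_mono_ae ?_
      filter_upwards [hC] with t ht
      have h2 : ∫⁻ x in Q d, ENNReal.ofReal ((u t x) ^ 2) = ∫⁻ x in Q d, ‖u t x‖ₑ ^ 2 := by
        refine lintegral_congr fun x => ?_
        rw [← enorm_pow, Real.enorm_eq_ofReal (sq_nonneg _)]
      rw [h2, lint_sq]
      refine pow_le_pow_left' ?_ 2
      exact (eLpNorm_le_eLpNorm_of_exponent_le hq (hmu t).aestronglyMeasurable).trans ht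
    refine lt_of_le_of_lt h1 ?_
    rw [lintegral_const]
    exact ENNReal.mul_lt_top (ENNReal.pow_lt_top ENNReal.coe_lt_top) hTfin
  · have h2 : ∫⁻ x in Q d, ENNReal.ofReal ((u0 x) ^ 2) = ∫⁻ x in Q d, ‖u0 x‖ₑ ^ 2 := by
      refine lintegral_congr fun x => ?_
      rw [← enorm_pow, Real.enorm_eq_ofReal (sq_nonneg _)]
    rw [h2, lint_sq]
    refine ENNReal.pow_lt_top ?_
    exact lt_of_le_of_lt (eLpNorm_le_eLpNorm_of_exponent_le hq hu.meas0.aestronglyMeasurable)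
      hu.bound0

end Pool.Agent.Helper98.ND.INTG
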