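import Pool.Agent.Helper98.ND.TAIL

set_option autoImplicit false

open MeasureTheory Set Filter Topology
open scoped ENNReal NNReal

namespace Pool.Agent.Helper98.ND.EST

open Pool.Agent.Helper28.ND

theorem main (hKEY : S_KEY) (hTAIL : S_TAIL) (hINTG : S_INTG) : S_EST := by
  intro d T p q b u0 u hT hq hpq hb hu f i hf
  obtain ⟨-, -, h3, -, -⟩ := hINTG d T p q b u0 u hT hq hpq hb hu
  obtain ⟨C, hC, hK⟩ := hKEY d T p q b u0 u hT hq hpq hb hu f i hf
  have h1 := hTAIL d T p q b u0 u hT hq hpq hb hu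
  have hmb : Measurable (fun z : ℝ × (Fin d → ℝ) => b z.1 z.2) := hb.meas
  have h2 := TAIL.tail_zero (T := T) (fun z : ℝ × (Fin d → ℝ) => ‖b z.1 z.2‖ₑ ^ 2)
    (fun z => ‖b z.1 z.2‖) (hmb.enorm.pow_const 2) hmb.norm h3
  have t1 := (ENNReal.tendsto_toReal (by norm_num : (0 : ℝ≥0∞) ≠ ⊤)).comp h1
  have t2 := (ENNReal.tendsto_toReal (by norm_num : (0 : ℝ≥0∞) ≠ ⊤)).comp h2
  have t3 := (Real.continuous_sqrt.tendsto _).comp t2
  have t4 := (t1.const_mul C).add ((((t3.const_mul C).add_const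
    (Real.sqrt (∫ t in Ioo 0 T, ∫ x in Q d, (f t x) ^ 2)))).const_mul
      (Real.sqrt (∫ x in Q d, (u0 x) ^ 2)))
  have h5 := ge_of_tendsto t4 (by
    filter_upwards [eventually_ge_atTop 1] with K hK1
    exact hK K hK1)
  simpa using h5

end Pool.Agent.Helper98.ND.EST
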