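import Pool.Agent.Helper28.ND.Spec

set_option autoImplicit false

open MeasureTheory Set Filter Topology
open scoped ENNReal NNReal

namespace Pool.Agent.Helper98.ND.TAIL

open Pool.Agent.Helper28.ND

/-- the tails of an integrable function -/
theorem tail_zero {d : ℕ} {T : ℝ} (F : ℝ × (Fin d → ℝ) → ℝ≥0∞) (g : ℝ × (Fin d → ℝ) → ℝ)
    (hF : Measurable F) (hg : Measurable g)
    (hfin : ∫⁻ t in Ioo 0 T, ∫⁻ x in Q d, F (t, x) < ⊤) :
    Tendsto (fun K : ℕ => ∫⁻ t in Ioo 0 T, ∫⁻ x in Q d,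
      (if (K : ℝ) < g (t, x) then F (t, x) else 0)) atTop (𝓝 0) := by
  set μ := (volume.restrict (Ioo (0 : ℝ) T)).prod (volume.restrict (Q d)) with hμ
  have hm : ∀ K : ℕ, Measurable (fun z : ℝ × (Fin d → ℝ) => if (K : ℝ) < g z then F z else 0) := by
    intro K
    exact Measurable.ite (measurableSet_lt measurable_const hg) hF measurable_const
  have h1 : ∀ K : ℕ, ∫⁻ t in Ioo 0 T, ∫⁻ x in Q d,
      (if (K : ℝ) < g (t, x) then F (t, x) else 0) =
      ∫⁻ z, (if (K : ℝ) < g z then F z else 0) ∂μ := by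
    intro K
    rw [hμ, lintegral_prod _ (hm K).aemeasurable]
  simp_rw [h1]
  have h2 : ∫⁻ z, F z ∂μ ≠ ⊤ := by
    rw [hμ, lintegral_prod _ hF.aemeasurable]
    exact hfin.ne
  have h3 : Tendsto (fun K : ℕ => ∫⁻ z, (if (K : ℝ) < g z then F z else 0) ∂μ) atTop
      (𝓝 (∫⁻ _z, 0 ∂μ)) := by
    refine tendsto_lintegral_of_dominated_convergence F hm ?_ h2 ?_
    · intro K
      refine Eventually.of_forall fun z => ?_
      dsimp only
      split_ifs
      · exact le_rfl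
      · exact bot_le
    · refine Eventually.of_forall fun z => ?_
      refine tendsto_const_nhds.congr' ?_
      obtain ⟨n, hn⟩ := exists_nat_ge (g z)
      filter_upwards [eventually_ge_atTop n] with K hK
      rw [if_neg]
      have : (n : ℝ) ≤ K := by exact_mod_cast hK
      exact not_lt.2 (hn.trans this)
  rwa [lintegral_zero] at h3

theorem main (hINTG : S_INTG) : S_TAIL := by
  intro d T p q b u0 u hT hq hpq hb hu
  obtain ⟨-, h2, -, -, -⟩ := hINTG d T p q b u0 u hT hq hpq hb hu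
  have hmb : Measurable (fun z : ℝ × (Fin d → ℝ) => b z.1 z.2) := hb.meas
  have hmu : Measurable (fun z : ℝ × (Fin d → ℝ) => u z.1 z.2) := hu.meas
  have hlim := tail_zero (T := T) (fun z : ℝ × (Fin d → ℝ) => ‖u z.1 z.2‖ₑ * ‖b z.1 z.2‖ₑ ^ 2)
    (fun z => ‖b z.1 z.2‖) (hmu.enorm.mul (hmb.enorm.pow_const 2)) hmb.norm h2
  refine tendsto_of_tendsto_of_tendsto_of_le_of_le tendsto_const_nhds hlim
    (fun K => bot_le) (fun K => ?_)
  dsimp only
  rw [← lintegral_const_mul' _ _ (ENNReal.natCast_ne_top K)]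
  refine lintegral_mono fun t => ?_
  rw [← lintegral_const_mul' _ _ (ENNReal.natCast_ne_top K)]
  refine lintegral_mono fun x => ?_
  dsimp only
  split_ifs with h
  · have h3 : (K : ℝ≥0∞) ≤ ‖b t x‖ₑ := by
      rw [← ofReal_norm, ← ENNReal.ofReal_natCast]
      exact ENNReal.ofReal_le_ofReal h.le
    calc (K : ℝ≥0∞) * (‖u t x‖ₑ * ‖b t x‖ₑ) ≤ ‖b t x‖ₑ * (‖u t x‖ₑ * ‖b t x‖ₑ) := by gcongr
      _ = ‖u t x‖ₑ * ‖b t x‖ₑ ^ 2 := by ring
  · rw [mul_zero]

end Pool.Agent.Helper98.ND.TAIL
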