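import Pool.Agent.Helper28.ND.Spec4

/-!
# MP_0c2f33_an, part BLK: the time structure of the hierarchy.
-/

namespace Pool.Agent.Helper98.ND.BLK
open MeasureTheory Set Filter Topology
open scoped ENNReal NNReal
open Pool.Agent.Helper28.ND

noncomputable section

/-! ### the signed distance -/

theorem abs_sd (y : ℝ) : |sd y| = min (Int.fract (2 * y)) (1 - Int.fract (2 * y)) / 2 := by
  have h : sd y = (2 * y - (round (2 * y) : ℝ)) / 2 := by unfold sd; ring
  rw [h, abs_div, abs_two, abs_sub_round_eq_min]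

theorem abs_sd_neg (y : ℝ) : |sd (-y)| = |sd y| := by
  rw [abs_sd, abs_sd]
  have h : 2 * -y = -(2 * y) := by ring
  rw [h]
  by_cases h0 : Int.fract (2 * y) = 0
  · have h1 : Int.fract (-(2 * y)) = 0 := Int.fract_neg_eq_zero.2 h0
    rw [h0, h1]
  · rw [Int.fract_neg h0, min_comm]
    ring_nf

theorem abs_sd_half (y : ℝ) (m : ℤ) : |sd (y + m / 2)| = |sd y| := by
  rw [abs_sd, abs_sd]
  have h : 2 * (y + (m : ℝ) / 2) = 2 * y + (m : ℝ) := by ring
  rw [h, Int.fract_add_intCast]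

theorem abs_sd_refl (y : ℝ) : |sd (1 / 2 - y)| = |sd y| := by
  have := abs_sd_half (-y) 1
  have h : (-y + ((1 : ℤ) : ℝ) / 2) = 1 / 2 - y := by push_cast; ring
  rw [h] at this
  rw [this, abs_sd_neg]

theorem abs_sd_int (y : ℝ) (m : ℤ) : |sd (y + m)| = |sd y| := by
  have := abs_sd_half y (2 * m)
  have h : (y + ((2 * m : ℤ) : ℝ) / 2) = y + m := by push_cast; ring
  rwa [h] at this

theorem sd_zero_of_sin {y : ℝ} (h : Real.sin (2 * Real.pi * y) = 0) : sd y = 0 := by
  obtain ⟨m, hm⟩ := Real.sin_eq_zero_iff.1 h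
  have h1 : 2 * y = (m : ℝ) := by
    have hpi := Real.pi_pos
    have : (m : ℝ) * Real.pi = (2 * y) * Real.pi := by rw [hm]; ring
    exact (mul_right_cancel₀ hpi.ne' this).symm
  have h2 : |sd y| = 0 := by
    rw [abs_sd, h1, Int.fract_intCast]
    simp
  exact abs_eq_zero.1 h2

/-! ### the elementary source -/

theorem gi_abs (r : ℝ) (x : Fin 2 → ℝ) : |gi r x| ≤ 1 := by
  unfold gi
  split_ifs <;> simp

theorem gi_meas (r : ℝ) : Measurable (gi r) := by
  have hsd : Measurable (fun x : Fin 2 → ℝ => |sd (x 0)|) := by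
    unfold sd
    simp only [round_eq]
    have h1 : Measurable (fun x : Fin 2 → ℝ => x 0) := measurable_pi_apply 0
    have h2 : Measurable (fun x : Fin 2 → ℝ => ((⌊2 * x 0 + 1 / 2⌋ : ℤ) : ℝ)) :=
      measurable_from_top.comp (((h1.const_mul 2).add_const _).floor)
    exact (h1.sub (h2.div_const 2)).abs
  unfold gi
  refine Measurable.ite ?_ (Measurable.ite ?_ measurable_const measurable_const) measurable_const
  · exact (measurableSet_le measurable_const hsd).inter (measurableSet_le hsd measurable_const)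
  · have h1 : Measurable (fun x : Fin 2 → ℝ => x 0) := measurable_pi_apply 0
    exact measurableSet_lt measurable_const (Real.measurable_sin.comp (h1.const_mul _))

/-- the source as a function of one variable -/
def g1 (r y : ℝ) : ℝ :=
  if r ≤ |sd y| ∧ |sd y| ≤ 2 * r then (if 0 < Real.sin (2 * Real.pi * y) then 1 else -1) else 0

theorem gi_eq (r : ℝ) (x : Fin 2 → ℝ) : gi r x = g1 r (x 0) := rfl

theorem g1_int (r y : ℝ) (m : ℤ) : g1 r (y + m) = g1 r y := by
  unfold g1
  have h1 : |sd (y + (m : ℝ))| = |sd y| := abs_sd_int _ _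
  have h2 : Real.sin (2 * Real.pi * (y + (m : ℝ))) = Real.sin (2 * Real.pi * y) := by
    have : 2 * Real.pi * (y + (m : ℝ)) = 2 * Real.pi * y + (m : ℝ) * (2 * Real.pi) := by
      ring
    rw [this, Real.sin_add_int_mul_two_pi]
  simp only [h1, h2]

theorem g1_neg {r : ℝ} (hr : 0 < r) (y : ℝ) : g1 r (-y) = - g1 r y := by
  unfold g1
  have h2 : Real.sin (2 * Real.pi * -y) = - Real.sin (2 * Real.pi * y) := by
    rw [← Real.sin_neg]; ring_nf
  simp only [abs_sd_neg, h2]
  by_cases hc : r ≤ |sd y| ∧ |sd y| ≤ 2 * r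
  · rw [if_pos hc, if_pos hc]
    have hne : Real.sin (2 * Real.pi * y) ≠ 0 := by
      intro h
      have := sd_zero_of_sin h
      rw [this, abs_zero] at hc
      exact absurd hc.1 (not_le.2 hr)
    rcases lt_or_gt_of_ne hne with h | h
    · rw [if_pos (by linarith), if_neg (by linarith)]; simp
    · rw [if_neg (by linarith), if_pos h]
  · rw [if_neg hc, if_neg hc, neg_zero]

theorem g1_refl (r y : ℝ) : g1 r (1 / 2 - y) = g1 r y := by
  unfold g1
  have h2 : Real.sin (2 * Real.pi * (1 / 2 - y)) = Real.sin (2 * Real.pi * y) := by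
    have : 2 * Real.pi * (1 / 2 - y) = Real.pi - 2 * Real.pi * y := by ring
    rw [this, Real.sin_pi_sub]
  simp only [abs_sd_refl, h2]

theorem gi_per {r : ℝ} : Per (gi r) := fun x k => g1_int r (x 0) (k 0)

theorem gi_sym {r : ℝ} (hr : 0 < r) : Sym (gi r) :=
  ⟨fun x => g1_neg hr (x 0), fun x => g1_refl r (x 0)⟩

theorem gi_nonneg {r : ℝ} (hr : 0 < r) (x : Fin 2 → ℝ) (h0 : 0 ≤ x 0) (h1 : x 0 ≤ 1 / 4) :
    0 ≤ gi r x := by
  unfold gi
  by_cases hc : r ≤ |sd (x 0)| ∧ |sd (x 0)| ≤ 2 * r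
  · rw [if_pos hc]
    have hx : 0 < x 0 := by
      rcases h0.lt_or_eq with h | h
      · exact h
      · exfalso
        rw [← h] at hc
        have : sd 0 = 0 := by unfold sd; simp
        rw [this, abs_zero] at hc
        exact absurd hc.1 (not_le.2 hr)
    have : 0 < Real.sin (2 * Real.pi * x 0) := by
      apply Real.sin_pos_of_pos_of_lt_pi
      · have := Real.pi_pos; positivity
      · have := Real.pi_pos; nlinarith
    rw [if_pos this]
    norm_num
  · rw [if_neg hc]

/-! ### local time -/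

theorem loc_add {L : ℝ} (hL : 0 < L) (t : ℝ) (j : ℕ) : loc L (t + 2 * j * L) = loc L t := by
  unfold loc
  have h : (t + 2 * j * L) / (2 * L) = t / (2 * L) + (j : ℕ) := by
    field_simp
  rw [h, Int.floor_add_natCast]
  push_cast
  ring

theorem loc_self {L : ℝ} (hL : 0 < L) {t : ℝ} (h0 : 0 ≤ t) (h1 : t < 2 * L) : loc L t = t := by
  unfold loc
  have : ⌊t / (2 * L)⌋ = 0 := by
    rw [Int.floor_eq_zero_iff]
    exact ⟨by positivity, by rw [div_lt_one (by positivity)]; exact h1⟩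
  rw [this]; simp

theorem loc_meas (L : ℝ) : Measurable (loc L) := by
  unfold loc
  have h2 : Measurable (fun t : ℝ => ((⌊t / (2 * L)⌋ : ℤ) : ℝ)) :=
    measurable_from_top.comp ((measurable_id.div_const _).floor)
  exact measurable_id.sub (h2.const_mul _)

/-! ### the pointwise structure -/

/-- properties of the drift at a fixed time -/
structure GB (r : ℝ) (w : (Fin 2 → ℝ) → (Fin 2 → ℝ)) : Prop where
  per : Per w
  sym : SymB w
  sp : ∀ x, w ![x 0, x 1 + r] = w x
  far : ∀ x, r ≤ |sd (x 0)| → ∀ i, w x i = 0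
  div : ∀ ζ : (Fin 2 → ℝ) → ℝ, ContDiff ℝ 1 ζ → Per ζ → ∫ x in Q 2, ∑ i, w x i * pd i ζ x = 0

/-- properties of the source at a fixed time -/
structure GF (r : ℝ) (w : (Fin 2 → ℝ) → ℝ) : Prop where
  per : Per w
  sym : Sym w
  sp : ∀ x, w ![x 0, x 1 + r] = w x
  abs : ∀ x, |w x| ≤ 1
  nn : ∀ x, 0 ≤ x 0 → x 0 ≤ 1 / 4 → 0 ≤ w x

theorem gb_zero (r : ℝ) : GB r (fun _ _ => 0) where
  per := fun _ _ => rfl
  sym := ⟨fun _ => by simp, fun _ => by simp⟩
  sp := fun _ => rfl
  far := fun _ _ _ => rfl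
  div := fun _ _ _ => by simp

theorem gf_zero (r : ℝ) : GF r (fun _ => 0) where
  per := fun _ _ => rfl
  sym := ⟨fun _ => by simp, fun _ => by simp⟩
  sp := fun _ => rfl
  abs := fun _ => by simp
  nn := fun _ _ _ => le_rfl

theorem sp_mul {E : Type} {r : ℝ} {w : (Fin 2 → ℝ) → E} (h : ∀ x, w ![x 0, x 1 + r] = w x) (N : ℕ)
    (x : Fin 2 → ℝ) : w ![x 0, x 1 + N * r] = w x := by
  induction N with
  | zero =>
    have : (![x 0, x 1 + ((0 : ℕ) : ℝ) * r] : Fin 2 → ℝ) = x := by
      funext i; fin_cases i <;> simp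
    rw [this]
  | succ N ih =>
    have h1 := h ![x 0, x 1 + N * r]
    simp only [Matrix.cons_val_zero, Matrix.cons_val_one] at h1
    have h2 : x 1 + (N : ℝ) * r + r = x 1 + ((N + 1 : ℕ) : ℝ) * r := by push_cast; ring
    rw [h2] at h1
    rw [h1, ih]

theorem GB.up {r r' : ℝ} {N : ℕ} {w : (Fin 2 → ℝ) → (Fin 2 → ℝ)} (h : GB r' w)
    (hr : r = N * r') (hle : r' ≤ r) : GB r w where
  per := h.per
  sym := h.sym
  sp := fun x => by rw [hr]; exact sp_mul h.sp N x
  far := fun x hx => h.far x (hle.trans hx)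
  div := h.div

theorem GF.up {r r' : ℝ} {N : ℕ} {w : (Fin 2 → ℝ) → ℝ} (h : GF r' w)
    (hr : r = N * r') : GF r w where
  per := h.per
  sym := h.sym
  sp := fun x => by rw [hr]; exact sp_mul h.sp N x
  abs := h.abs
  nn := h.nn

theorem GB.smul {r : ℝ} {w : (Fin 2 → ℝ) → (Fin 2 → ℝ)} (h : GB r w) (V : ℝ) :
    GB r (fun x i => V * w x i) where
  per := fun x k => by
    have := h.per x k
    funext i
    simp only
    rw [this]
  sym := by
    refine ⟨fun x => ⟨?_, ?_⟩, fun x => ⟨?_, ?_⟩⟩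
    · simp only [(h.sym.1 x).1]; ring
    · simp only [(h.sym.1 x).2]
    · simp only [(h.sym.2 x).1]; ring
    · simp only [(h.sym.2 x).2]
  sp := fun x => by
    funext i
    simp only [h.sp x]
  far := fun x hx i => by simp only [h.far x hx i, mul_zero]
  div := fun ζ h1 h2 => by
    have h3 := h.div ζ h1 h2
    have : (fun x => ∑ i, V * w x i * pd i ζ x) = fun x => V * ∑ i, w x i * pd i ζ x := by
      funext x
      rw [Finset.mul_sum]
      exact Finset.sum_congr rfl fun i _ => by ring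
    rw [this, integral_const_mul, h3, mul_zero]

/-! ### the recursion -/

variable {T : ℝ} {n0 N M : ℕ}

theorem bt_zero (k : ℕ) (t : ℝ) : bt n0 N M 0 k t = fun _ _ => 0 := rfl

theorem bt_succ (n k : ℕ) (t : ℝ) : bt n0 N M (n + 1) k t =
    if t ≤ 0 ∨ KC n0 N M k ≤ t then fun _ _ => 0 else
      if loc (LL n0 N (k + 1)) t < LL n0 N (k + 1) then
        bt n0 N M n (k + 1) (loc (LL n0 N (k + 1)) t)
      else fun x i => VV n0 N M k * bet (rr n0 N k) N x i := rfl

theorem ft_zero (k : ℕ) (t : ℝ) : ft n0 N M 0 k t =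
    if 0 < t ∧ t < KC n0 N M k then gi (rr n0 N k) else fun _ => 0 := rfl

theorem ft_succ (n k : ℕ) (t : ℝ) : ft n0 N M (n + 1) k t =
    if t ≤ 0 ∨ KC n0 N M k ≤ t then fun _ => 0 else
      if loc (LL n0 N (k + 1)) t < LL n0 N (k + 1) then
        ft n0 N M n (k + 1) (loc (LL n0 N (k + 1)) t)
      else fun _ => 0 := rfl

theorem beta_gb (hBETA : S_BETA) (hP : Par T n0 N M) : ∃ C : ℝ, 1 ≤ C ∧ ∀ k : ℕ,
    Continuous (bet (rr n0 N k) N) ∧ GB (rr n0 N k) (bet (rr n0 N k) N) ∧
    ∀ x i, |bet (rr n0 N k) N x i| ≤ C := by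
  have hN := hP.hN2
  obtain ⟨C, hC, h⟩ := hBETA N (by omega)
  refine ⟨C, hC, fun k => ?_⟩
  have hn : 8 ≤ n0 * N ^ k := by
    have h1 : 1 ≤ N ^ k := Nat.one_le_pow _ _ (by omega)
    have h2 := hP.hn
    nlinarith
  obtain ⟨h1, h2, h3, h4, h5, h6, h7, h8, h9⟩ := h (n0 * N ^ k) hn
  refine ⟨h1, ⟨h2, h3, h5, fun x hx i => ?_, h8⟩, fun x i => ?_⟩
  · have := h6 x hx
    show bet (1 / ((n0 * N ^ k : ℕ) : ℝ)) N x i = 0
    rw [this]; rfl
  · fin_cases i
    · exact (h4 x).1.trans hC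
    · exact (h4 x).2

theorem rr_up (hNUM : S_NUM) (hP : Par T n0 N M) (k : ℕ) :
    rr n0 N k = N * rr n0 N (k + 1) ∧ rr n0 N (k + 1) ≤ rr n0 N k := by
  obtain ⟨h0, h1, -⟩ := hNUM T n0 N M hP k
  have hN : (1 : ℝ) ≤ N := by
    have := hP.hN2
    exact_mod_cast (by omega : 1 ≤ N)
  constructor
  · rw [h1]; field_simp
  · rw [h1]; exact div_le_self h0.le hN

theorem gb_all (hBETA : S_BETA) (hNUM : S_NUM) (hP : Par T n0 N M) (n : ℕ) :
    ∀ (k : ℕ) (t : ℝ), GB (rr n0 N k) (bt n0 N M n k t) := by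
  obtain ⟨C, hC, hb⟩ := beta_gb hBETA hP
  induction n with
  | zero => intro k t; rw [bt_zero]; exact gb_zero _
  | succ n ih =>
    intro k t
    rw [bt_succ]
    obtain ⟨h1, h2⟩ := rr_up hNUM hP k
    split_ifs
    · exact gb_zero _
    · exact (ih (k + 1) _).up h1 h2
    · exact (hb k).2.1.smul _

theorem gf_gi (hNUM : S_NUM) (hP : Par T n0 N M) (k : ℕ) : GF (rr n0 N k) (gi (rr n0 N k)) where
  per := gi_per
  sym := gi_sym (hNUM T n0 N M hP k).1
  sp := fun x => rfl
  abs := gi_abs _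
  nn := gi_nonneg (hNUM T n0 N M hP k).1

theorem gf_all (hNUM : S_NUM) (hP : Par T n0 N M) (n : ℕ) :
    ∀ (k : ℕ) (t : ℝ), GF (rr n0 N k) (ft n0 N M n k t) := by
  induction n with
  | zero =>
    intro k t; rw [ft_zero]
    split_ifs
    · exact gf_gi hNUM hP k
    · exact gf_zero _
  | succ n ih =>
    intro k t
    rw [ft_succ]
    obtain ⟨h1, h2⟩ := rr_up hNUM hP k
    split_ifs
    · exact gf_zero _
    · exact (ih (k + 1) _).up h1
    · exact gf_zero _

theorem bd_all (hBETA : S_BETA) (hP : Par T n0 N M) (n : ℕ) :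
    ∀ k : ℕ, ∃ B : ℝ, ∀ t x i, |bt n0 N M n k t x i| ≤ B := by
  obtain ⟨C, hC, hb⟩ := beta_gb hBETA hP
  induction n with
  | zero => intro k; exact ⟨0, fun t x i => by rw [bt_zero]; simp⟩
  | succ n ih =>
    intro k
    obtain ⟨B, hB⟩ := ih (k + 1)
    refine ⟨max 0 (max B (|VV n0 N M k| * C)), fun t x i => ?_⟩
    rw [bt_succ]
    split_ifs
    · simp
    · exact (hB _ x i).trans ((le_max_left _ _).trans (le_max_right _ _))
    · rw [abs_mul]
      refine le_trans ?_ ((le_max_right _ _).trans (le_max_right _ _))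
      exact mul_le_mul_of_nonneg_left ((hb k).2.2 x i) (abs_nonneg _)

theorem meas_out (k : ℕ) : MeasurableSet
    {z : ℝ × (Fin 2 → ℝ) | z.1 ≤ 0 ∨ KC n0 N M k ≤ z.1} :=
  (measurableSet_le measurable_fst measurable_const).union
    (measurableSet_le measurable_const measurable_fst)

theorem meas_loc (k : ℕ) : MeasurableSet
    {z : ℝ × (Fin 2 → ℝ) | loc (LL n0 N (k + 1)) z.1 < LL n0 N (k + 1)} :=
  measurableSet_lt ((loc_meas _).comp measurable_fst) measurable_const

theorem mb_all (hBETA : S_BETA) (hP : Par T n0 N M) (n : ℕ) :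
    ∀ k : ℕ, Measurable (U (bt n0 N M n k)) := by
  obtain ⟨C, hC, hb⟩ := beta_gb hBETA hP
  induction n with
  | zero => intro k; exact measurable_const
  | succ n ih =>
    intro k
    have h : U (bt n0 N M (n + 1) k) = fun z : ℝ × (Fin 2 → ℝ) =>
        if z.1 ≤ 0 ∨ KC n0 N M k ≤ z.1 then (fun _ : Fin 2 => (0 : ℝ)) else
          if loc (LL n0 N (k + 1)) z.1 < LL n0 N (k + 1) then
            U (bt n0 N M n (k + 1)) (loc (LL n0 N (k + 1)) z.1, z.2)
          else fun i => VV n0 N M k * bet (rr n0 N k) N z.2 i := by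
      funext z
      simp only [U, bt_succ]
      split_ifs <;> rfl
    rw [h]
    refine Measurable.ite (meas_out k) measurable_const (Measurable.ite (meas_loc k) ?_ ?_)
    · exact (ih (k + 1)).comp (((loc_meas _).comp measurable_fst).prodMk measurable_snd)
    · refine measurable_pi_lambda _ fun i => ?_
      exact (((measurable_pi_apply i).comp (hb k).1.measurable).comp measurable_snd).const_mul _

theorem mf_all (n : ℕ) : ∀ k : ℕ, Measurable (U (ft n0 N M n k)) := by
  induction n with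
  | zero =>
    intro k
    have h : U (ft n0 N M 0 k) = fun z : ℝ × (Fin 2 → ℝ) =>
        if 0 < z.1 ∧ z.1 < KC n0 N M k then gi (rr n0 N k) z.2 else 0 := by
      funext z
      simp only [U, ft_zero]
      split_ifs <;> rfl
    rw [h]
    refine Measurable.ite ?_ ((gi_meas _).comp measurable_snd) measurable_const
    exact (measurableSet_lt measurable_const measurable_fst).inter
      (measurableSet_lt measurable_fst measurable_const)
  | succ n ih =>
    intro k
    have h : U (ft n0 N M (n + 1) k) = fun z : ℝ × (Fin 2 → ℝ) =>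
        if z.1 ≤ 0 ∨ KC n0 N M k ≤ z.1 then (0 : ℝ) else
          if loc (LL n0 N (k + 1)) z.1 < LL n0 N (k + 1) then
            U (ft n0 N M n (k + 1)) (loc (LL n0 N (k + 1)) z.1, z.2)
          else 0 := by
      funext z
      simp only [U, ft_succ]
      split_ifs <;> rfl
    rw [h]
    refine Measurable.ite (meas_out k) measurable_const (Measurable.ite (meas_loc k) ?_ ?_)
    · exact (ih (k + 1)).comp (((loc_meas _).comp measurable_fst).prodMk measurable_snd)
    · exact measurable_const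

theorem out_b (n k : ℕ) (t : ℝ) (h : t ≤ 0 ∨ KC n0 N M k ≤ t) :
    bt n0 N M n k t = fun _ _ => 0 := by
  cases n with
  | zero => rfl
  | succ n => rw [bt_succ, if_pos h]

theorem out_f (n k : ℕ) (t : ℝ) (h : t ≤ 0 ∨ KC n0 N M k ≤ t) :
    ft n0 N M n k t = fun _ => 0 := by
  cases n with
  | zero =>
    rw [ft_zero, if_neg]
    rintro ⟨h1, h2⟩
    rcases h with h | h <;> linarith
  | succ n => rw [ft_succ, if_pos h]

theorem kc_le (hNUM : S_NUM) (hP : Par T n0 N M) (k : ℕ) : KC n0 N M k ≤ T := by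
  obtain ⟨h0, -, -, -, h1, -, -, -, -, h2, -⟩ := hNUM T n0 N M hP k
  have := hP.hT
  nlinarith [sq_nonneg (rr n0 N k)]

theorem fd (hBETA : S_BETA) (hNUM : S_NUM) (hP : Par T n0 N M) (n k : ℕ) :
    FD 2 T (bt n0 N M n k) (ft n0 N M n k) where
  mb := mb_all hBETA hP n k
  pb := fun t => (gb_all hBETA hNUM hP n k t).per
  sb := fun t ht x i => by
    rw [out_b n k t (ht.imp_right (kc_le hNUM hP k).trans)]
  mf := mf_all n k
  pf := fun t => (gf_all hNUM hP n k t).per
  sf := fun t ht x => by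
    rw [out_f n k t (ht.imp_right (kc_le hNUM hP k).trans)]
  bdd := by
    obtain ⟨B, hB⟩ := bd_all hBETA hP n k
    exact ⟨max 1 B, fun t x => ⟨((gf_all hNUM hP n k t).abs x).trans (le_max_left _ _),
      fun i => (hB t x i).trans (le_max_right _ _)⟩⟩
  db := fun t => (gb_all hBETA hNUM hP n k t).div

/-- **Part BLK.** -/
theorem main (hBETA : S_BETA) (hNUM : S_NUM) : S_BLK := by
  intro T n0 N M hP n k
  have hL : 0 < LL n0 N (k + 1) := (hNUM T n0 N M hP (k + 1)).2.2.2.1
  refine ⟨fd hBETA hNUM hP n k, fun t => ⟨(gf_all hNUM hP n k t).sym,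
    (gb_all hBETA hNUM hP n k t).sym⟩, fun t => (gf_all hNUM hP n k t).abs,
    fun t => (gf_all hNUM hP n k t).nn, fun t x => ⟨(gb_all hBETA hNUM hP n k t).sp x,
    (gf_all hNUM hP n k t).sp x⟩, fun t ht x => ⟨by rw [out_f n k t ht], fun i => by
    rw [out_b n k t ht]⟩, fun t => (gb_all hBETA hNUM hP n k t).far, ?_, ?_⟩
  · intro j hj t h0 h1 x
    have hj' : (j : ℝ) + 1 ≤ M := by exact_mod_cast hj
    have hn : ¬ (t + 2 * j * LL n0 N (k + 1) ≤ 0 ∨ KC n0 N M k ≤ t + 2 * j * LL n0 N (k + 1)) := by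
      rintro (h | h)
      · have : 0 ≤ 2 * (j : ℝ) * LL n0 N (k + 1) := by positivity
        linarith
      · unfold KC at h
        nlinarith
    have hl : loc (LL n0 N (k + 1)) (t + 2 * j * LL n0 N (k + 1)) = t := by
      rw [loc_add hL, loc_self hL h0.le (by linarith)]
    rw [ft_succ, bt_succ, if_neg hn, if_neg hn, hl, if_pos h1, if_pos h1]
    exact ⟨rfl, fun i => rfl⟩
  · intro j hj t h0 h1 x
    have hj' : (j : ℝ) + 1 ≤ M := by exact_mod_cast hj
    have hn : ¬ (t ≤ 0 ∨ KC n0 N M k ≤ t) := by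
      rintro (h | h)
      · have : 0 ≤ (2 * (j : ℝ) + 1) * LL n0 N (k + 1) := by positivity
        linarith
      · unfold KC at h
        nlinarith
    have hl : loc (LL n0 N (k + 1)) t = t - 2 * j * LL n0 N (k + 1) := by
      have h2 := loc_add hL (t - 2 * j * LL n0 N (k + 1)) j
      rw [sub_add_cancel] at h2
      rw [h2, loc_self hL (by linarith) (by linarith)]
    have hc : ¬ (loc (LL n0 N (k + 1)) t < LL n0 N (k + 1)) := by
      rw [hl]; push Not; linarith
    rw [ft_succ, bt_succ, if_neg hn, if_neg hn, if_neg hc, if_neg hc]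
    exact ⟨rfl, fun i => rfl⟩

end

end Pool.Agent.Helper98.ND.BLK
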